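import Mathlib
import Pool.Agent.V11180.ProdInter

/-!
# MP_3b8abe_co: semigroups with infinite representation counts and full intersection sets

A semigroup `S` has both properties of the problem if and only if some element has infinitely many
factorisations `x = a b` into two factors, and for each `x ∈ S` all but finitely many of the
factorisations `x = a b` involve a member of a finite set of square roots of `x`.
-/

set_option autoImplicit false

open Pointwise

namespace Pool.Agent.Results.MP_3b8abe_co.Characterisation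

open Pool.Agent.V11180.ProdInter

universe v

/-- The product `a₀ a₁ ⋯ a_n` of a tuple of `n + 1` elements of a semigroup. -/
def tupleProd {S : Type v} [Semigroup S] : (n : ℕ) → (Fin (n + 1) → S) → S
  | 0, a => a 0
  | n + 1, a => tupleProd n (fun i => a i.castSucc) * a (Fin.last (n + 1))

/-- Property 1: there is a positive integer `h₀` such that for every `h ≥ h₀` some `x ∈ S` has
infinitely many representations as a product of an `h`-tuple (written here with `h = n + 1`,
`h₀ = n₀ + 1`). -/
def InfiniteRepresentations (S : Type v) [Semigroup S] : Prop :=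
  ∃ n₀ : ℕ, ∀ n ≥ n₀, ∃ x : S, {a : Fin (n + 1) → S | tupleProd n a = x}.Infinite

/-- Property 2: `𝐇*_ℕ(S) = {{1, 2, 3, ...}}`. -/
def FullIntersectionSets (S : Type v) [Semigroup S] : Prop :=
  {X | ∃ A : ℕ → Set S, AsympStrictDecreasing A ∧ interSet A = X} = {{h : ℕ | 1 ≤ h}}

/-- The criterion on two-fold factorisations. -/
def TwoFold (S : Type v) [Semigroup S] : Prop :=
  ∀ x : S, ∃ C : Set S, C.Finite ∧ (∀ c ∈ C, c * c = x) ∧
    {p : S × S | p.1 * p.2 = x ∧ p.1 ∉ C ∧ p.2 ∉ C}.Finite

variable {S : Type v} [Semigroup S]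

/-! ### Property 1 -/

lemma infRep_iff : InfiniteRepresentations S ↔ ∃ x : S, {p : S × S | p.1 * p.2 = x}.Infinite := by
  constructor
  · rintro ⟨n₀, h⟩
    by_contra hcon
    push Not at hcon
    have key : ∀ n : ℕ, ∀ x : S, {a : Fin (n + 1) → S | tupleProd n a = x}.Finite := by
      intro n
      induction n with
      | zero =>
        intro x
        apply (Set.finite_singleton (fun _ : Fin 1 => x)).subset
        intro a ha
        ext i
        have : i = 0 := Subsingleton.elim _ _
        subst this
        exact ha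
      | succ n ih =>
        intro x
        have h1 := hcon x
        have h2 : {a : Fin (n + 1 + 1) → S | tupleProd (n + 1) a = x} ⊆
            ⋃ p ∈ {p : S × S | p.1 * p.2 = x},
              (fun b : Fin (n + 1) → S => (Fin.snoc b p.2 : Fin (n + 1 + 1) → S)) ''
                {b | tupleProd n b = p.1} := by
          intro a ha
          refine Set.mem_biUnion (x := (tupleProd n (fun i => a i.castSucc), a (Fin.last (n + 1))))
            ha ⟨fun i => a i.castSucc, rfl, ?_⟩
          exact Fin.snoc_init_self a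
        exact (Set.Finite.biUnion h1 (fun p _ => (ih p.1).image _)).subset h2
    obtain ⟨x, hx⟩ := h n₀ le_rfl
    exact hx (key n₀ x)
  · rintro ⟨x, hx⟩
    refine ⟨1, ?_⟩
    intro n hn
    induction n, hn using Nat.le_induction with
    | base =>
      refine ⟨x, ?_⟩
      have hinj : Function.Injective (fun p : S × S => (![p.1, p.2] : Fin 2 → S)) := by
        intro p q hpq
        have h0 := congrFun hpq 0
        have h1 := congrFun hpq 1
        simp at h0 h1
        exact Prod.ext h0 h1
      refine (hx.image hinj.injOn).mono ?_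
      rintro _ ⟨p, hp, rfl⟩
      exact hp
    | succ n hn ih =>
      obtain ⟨y, hy⟩ := ih
      refine ⟨y * x, ?_⟩
      have hinj : Function.Injective
          (fun b : Fin (n + 1) → S => (Fin.snoc b x : Fin (n + 1 + 1) → S)) := by
        intro b c hbc
        have := congrArg Fin.init hbc
        simpa [Fin.init_snoc] using this
      refine (hy.image hinj.injOn).mono ?_
      rintro _ ⟨b, hb, rfl⟩
      show tupleProd n (fun i => (Fin.snoc b x : Fin (n + 1 + 1) → S) i.castSucc) *
        (Fin.snoc b x : Fin (n + 1 + 1) → S) (Fin.last (n + 1)) = y * x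
      have h1 : (fun i : Fin (n + 1) => (Fin.snoc b x : Fin (n + 1 + 1) → S) i.castSucc) = b := by
        ext i
        simp
      rw [h1, Fin.snoc_last]
      rw [show tupleProd n b = y from hb]

/-! ### Consequences of the criterion -/

lemma left_inf (hS : TwoFold S) {c x : S} (h : {a | c * a = x}.Infinite) : c * c = x := by
  obtain ⟨C, hC, hC2, hf⟩ := hS x
  by_cases hc : c ∈ C
  · exact hC2 c hc
  · exfalso
    have h1 : ({a | c * a = x} \ C).Infinite := h.sdiff hC
    have h2 : ((fun a => (c, a)) '' ({a | c * a = x} \ C)).Infinite :=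
      h1.image (fun a _ b _ hab => (Prod.mk.inj hab).2)
    apply h2
    apply hf.subset
    rintro _ ⟨a, ⟨ha, ha'⟩, rfl⟩
    exact ⟨ha, hc, ha'⟩

lemma right_inf (hS : TwoFold S) {c x : S} (h : {a | a * c = x}.Infinite) : c * c = x := by
  obtain ⟨C, hC, hC2, hf⟩ := hS x
  by_cases hc : c ∈ C
  · exact hC2 c hc
  · exfalso
    have h1 : ({a | a * c = x} \ C).Infinite := h.sdiff hC
    have h2 : ((fun a => (a, c)) '' ({a | a * c = x} \ C)).Infinite :=
      h1.image (fun a _ b _ hab => (Prod.mk.inj hab).1)
    apply h2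
    apply hf.subset
    rintro _ ⟨a, ⟨ha, ha'⟩, rfl⟩
    exact ⟨ha, ha', hc⟩

/-- no element is a square of infinitely many elements -/
lemma sq_fin (hS : TwoFold S) (z : S) (B : Set S) (hB : B.Infinite) (hz : ∀ b ∈ B, b * b = z) :
    False := by
  obtain ⟨C, hC, hC2, hf⟩ := hS z
  have h1 : (B \ C).Infinite := hB.sdiff hC
  have h2 : ((fun a => (a, a)) '' (B \ C)).Infinite :=
    h1.image (fun a _ b _ hab => (Prod.mk.inj hab).1)
  apply h2
  apply hf.subset
  rintro _ ⟨a, ⟨ha, ha'⟩, rfl⟩
  exact ⟨hz a ha, ha', ha'⟩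

/-- infinite fibres -/
lemma exists_infinite_fibre {α β : Type v} (f : α → β) (A : Set α) (hA : A.Infinite)
    (hfin : (f '' A).Finite) : ∃ t, {a ∈ A | f a = t}.Infinite := by
  by_contra hcon
  push Not at hcon
  apply hA
  apply Set.Finite.of_finite_fibers f hfin
  intro t _
  apply (hcon t).subset
  rintro a ⟨h1, h2⟩
  exact ⟨h1, h2⟩

lemma sq_image_infinite (hS : TwoFold S) (A : Set S) (hA : A.Infinite) :
    ((fun a => a * a) '' A).Infinite := by
  intro hfin
  obtain ⟨t, ht⟩ := exists_infinite_fibre (fun a : S => a * a) A hA hfin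
  exact sq_fin hS t _ ht (fun b hb => hb.2)

lemma cube_left (hS : TwoFold S) {c x : S} (h : {a | c * a = x}.Infinite) :
    c * c * c = c * c := by
  have hx := left_inf hS h
  subst hx
  have h1 := sq_image_infinite hS _ h
  have h2 : {b | c * b = c * c * c}.Infinite := by
    apply h1.mono
    rintro _ ⟨a, ha, rfl⟩
    show c * (a * a) = c * c * c
    have ha' : c * a = c * c := ha
    rw [← mul_assoc, ha', mul_assoc, ha', ← mul_assoc]
  exact (left_inf hS h2).symm

lemma cube_right (hS : TwoFold S) {c x : S} (h : {a | a * c = x}.Infinite) :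
    c * c * c = c * c := by
  have hx := right_inf hS h
  subst hx
  have h1 := sq_image_infinite hS _ h
  have h2 : {b | b * c = c * c * c}.Infinite := by
    apply h1.mono
    rintro _ ⟨a, ha, rfl⟩
    show a * a * c = c * c * c
    have ha' : a * c = c * c := ha
    rw [mul_assoc, ha', ← mul_assoc, ha']
  exact (right_inf hS h2).symm

lemma hfold_succ' (A : Set S) (n : ℕ) : hfold A (n + 2) = A * hfold A (n + 1) := by
  induction n with
  | zero => rfl
  | succ n ih =>
    calc hfold A (n + 1 + 2) = hfold A (n + 2) * A := rfl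
      _ = (A * hfold A (n + 1)) * A := by rw [ih]
      _ = A * (hfold A (n + 1) * A) := mul_assoc _ _ _

lemma hfold_mono {A B : Set S} (h : A ⊆ B) (n : ℕ) : hfold A (n + 1) ⊆ hfold B (n + 1) := by
  induction n with
  | zero => exact h
  | succ n ih =>
    rw [hfold_succ, hfold_succ]
    exact Set.mul_subset_mul ih h

lemma sq_mem_hfold {A : Set S} {c : S} (hc : c ∈ A) (h : c * c * c = c * c) (n : ℕ) :
    c * c ∈ hfold A (n + 2) := by
  induction n with
  | zero => exact ⟨c, hc, c, hc, rfl⟩
  | succ n ih =>
    rw [hfold_succ]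
    exact ⟨c * c, ih, c, hc, h⟩

/-- right-hand version -/
lemma extend_right (hS : TwoFold S) (A : Set S) (n : ℕ) : ∀ c ∈ hfold A (n + 1), ∀ x : S,
    {s | s * c = x}.Infinite → x ∈ hfold A (n + 2) := by
  induction n with
  | zero =>
    intro c hc x hx
    rw [← right_inf hS hx]
    exact ⟨c, hc, c, hc, rfl⟩
  | succ n ih =>
    intro c hc x hx
    rw [hfold_succ] at hc
    obtain ⟨c', hc', u, hu, rfl⟩ := hc
    by_cases hfin : ((fun s => s * c') '' {s | s * (c' * u) = x}).Finite
    · obtain ⟨t, ht⟩ := exists_infinite_fibre (fun s : S => s * c') _ hx hfin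
      have h1 : t ∈ hfold A (n + 2) := by
        apply ih c' hc' t
        apply ht.mono
        rintro s ⟨-, hs⟩
        exact hs
      obtain ⟨s, hs1, hs2⟩ := ht.nonempty
      rw [hfold_succ]
      refine ⟨t, h1, u, hu, ?_⟩
      simp only at hs1 hs2 ⊢
      rw [← hs2, mul_assoc]
      exact hs1
    · have h1 : {t | t * u = x}.Infinite := by
        refine Set.Infinite.mono ?_ hfin
        rintro _ ⟨s, hs, rfl⟩
        show s * c' * u = x
        rw [mul_assoc]
        exact hs
      rw [← right_inf hS h1]
      exact sq_mem_hfold hu (cube_right hS h1) (n + 1)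

/-- left-hand version -/
lemma extend_left (hS : TwoFold S) (A : Set S) (n : ℕ) : ∀ c ∈ hfold A (n + 1), ∀ x : S,
    {s | c * s = x}.Infinite → x ∈ hfold A (n + 2) := by
  induction n with
  | zero =>
    intro c hc x hx
    rw [← left_inf hS hx]
    exact ⟨c, hc, c, hc, rfl⟩
  | succ n ih =>
    intro c hc x hx
    rw [hfold_succ'] at hc
    obtain ⟨u, hu, c', hc', rfl⟩ := hc
    by_cases hfin : ((fun s => c' * s) '' {s | u * c' * s = x}).Finite
    · obtain ⟨t, ht⟩ := exists_infinite_fibre (fun s : S => c' * s) _ hx hfin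
      have h1 : t ∈ hfold A (n + 2) := by
        apply ih c' hc' t
        apply ht.mono
        rintro s ⟨-, hs⟩
        exact hs
      obtain ⟨s, hs1, hs2⟩ := ht.nonempty
      rw [hfold_succ']
      refine ⟨u, hu, t, h1, ?_⟩
      simp only at hs1 hs2 ⊢
      rw [← hs2, ← mul_assoc]
      exact hs1
    · have h1 : {t | u * t = x}.Infinite := by
        refine Set.Infinite.mono ?_ hfin
        rintro _ ⟨s, hs, rfl⟩
        show u * (c' * s) = x
        rw [← mul_assoc]
        exact hs
      rw [← left_inf hS h1]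
      exact sq_mem_hfold hu (cube_left hS h1) (n + 1)

/-- The criterion implies that all product intersection sets of decreasing sequences are full. -/
lemma mem_of_forall (hS : TwoFold S) (A : ℕ → Set S) (hA : Antitone A) (n : ℕ) :
    ∀ x, (∀ q, x ∈ hfold (A q) (n + 1)) → x ∈ hfold (⋂ q, A q) (n + 1) := by
  induction n with
  | zero =>
    intro x hx
    exact Set.mem_iInter.2 hx
  | succ n ih =>
    intro x hx
    have hch : ∀ q, ∃ y s, y ∈ hfold (A q) (n + 1) ∧ s ∈ A q ∧ y * s = x := by
      intro q
      obtain ⟨y, hy, s, hs, h⟩ := hx q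
      exact ⟨y, s, hy, hs, h⟩
    choose y s hy hs hys using hch
    by_cases hcase : ∃ p : S × S, p.1 * p.2 = x ∧ ∀ q, p.1 ∈ hfold (A q) (n + 1) ∧ p.2 ∈ A q
    · obtain ⟨⟨y₀, s₀⟩, hp, hq⟩ := hcase
      rw [hfold_succ]
      exact ⟨y₀, ih y₀ (fun q => (hq q).1), s₀, Set.mem_iInter.2 (fun q => (hq q).2), hp⟩
    · have hfib : ∀ p : S × S, {q | (y q, s q) = p}.Finite := by
        intro p
        by_contra hinf
        apply hcase
        refine ⟨p, ?_, ?_⟩
        · obtain ⟨q, hq⟩ := (Set.not_finite.1 hinf).nonempty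
          have hq' : (y q, s q) = p := hq
          rw [← hq']
          exact hys q
        · intro q
          obtain ⟨q', hq', hlt⟩ := (Set.not_finite.1 hinf).exists_gt q
          have hq'' : (y q', s q') = p := hq'
          rw [← hq'']
          exact ⟨hfold_mono (hA hlt.le) n (hy q'), hA hlt.le (hs q')⟩
      obtain ⟨C, hC, hC2, hf⟩ := hS x
      have hbad : {q | y q ∉ C ∧ s q ∉ C}.Finite := by
        have h1 : {q | y q ∉ C ∧ s q ∉ C} ⊆
            ⋃ p ∈ {p : S × S | p.1 * p.2 = x ∧ p.1 ∉ C ∧ p.2 ∉ C}, {q | (y q, s q) = p} := by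
          intro q hq
          exact Set.mem_biUnion (x := (y q, s q)) ⟨hys q, hq.1, hq.2⟩ rfl
        exact (hf.biUnion (fun p _ => hfib p)).subset h1
      have hgood : ({q | y q ∈ C} ∪ {q | s q ∈ C}).Infinite := by
        have h1 : {q | y q ∉ C ∧ s q ∉ C}ᶜ = {q | y q ∈ C} ∪ {q | s q ∈ C} := by
          ext q
          simp only [Set.mem_compl_iff, Set.mem_ofPred_eq, Set.mem_union]
          tauto
        rw [← h1]
        exact hbad.infinite_compl
      rcases Set.infinite_union.1 hgood with hg | hg
      · -- infinitely many `y q` in `C`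
        obtain ⟨c, hc⟩ : ∃ c, {q | y q = c}.Infinite := by
          by_contra hcon
          push Not at hcon
          apply hg
          have h1 : {q | y q ∈ C} ⊆ ⋃ c ∈ C, {q | y q = c} := by
            intro q hq
            exact Set.mem_biUnion (x := y q) hq rfl
          exact (hC.biUnion (fun c _ => hcon c)).subset h1
        have hcmem : c ∈ hfold (⋂ q, A q) (n + 1) := by
          apply ih
          intro q
          obtain ⟨q', hq', hlt⟩ := hc.exists_gt q
          rw [← show y q' = c from hq']
          exact hfold_mono (hA hlt.le) n (hy q')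
        apply extend_left hS _ n c hcmem x
        have h1 : (s '' {q | y q = c}).Infinite := by
          intro hfin
          apply hc
          have h2 : {q | y q = c} ⊆ ⋃ t ∈ s '' {q | y q = c}, {q | (y q, s q) = (c, t)} := by
            intro q hq
            refine Set.mem_biUnion (x := s q) ⟨q, hq, rfl⟩ ?_
            show (y q, s q) = (c, s q)
            rw [show y q = c from hq]
          exact (hfin.biUnion (fun t _ => hfib (c, t))).subset h2
        apply h1.mono
        rintro _ ⟨q, hq, rfl⟩
        show c * s q = x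
        rw [← show y q = c from hq]
        exact hys q
      · obtain ⟨c, hc⟩ : ∃ c, {q | s q = c}.Infinite := by
          by_contra hcon
          push Not at hcon
          apply hg
          have h1 : {q | s q ∈ C} ⊆ ⋃ c ∈ C, {q | s q = c} := by
            intro q hq
            exact Set.mem_biUnion (x := s q) hq rfl
          exact (hC.biUnion (fun c _ => hcon c)).subset h1
        have hcmem : c ∈ ⋂ q, A q := by
          rw [Set.mem_iInter]
          intro q
          obtain ⟨q', hq', hlt⟩ := hc.exists_gt q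
          rw [← show s q' = c from hq']
          exact hA hlt.le (hs q')
        have h1 : (y '' {q | s q = c}).Infinite := by
          intro hfin
          apply hc
          have h2 : {q | s q = c} ⊆ ⋃ t ∈ y '' {q | s q = c}, {q | (y q, s q) = (t, c)} := by
            intro q hq
            refine Set.mem_biUnion (x := y q) ⟨q, hq, rfl⟩ ?_
            show (y q, s q) = (y q, c)
            rw [show s q = c from hq]
          exact (hfin.biUnion (fun t _ => hfib (t, c))).subset h2
        have h3 : {t | t * c = x}.Infinite := by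
          apply h1.mono
          rintro _ ⟨q, hq, rfl⟩
          show y q * c = x
          rw [← show s q = c from hq]
          exact hys q
        rw [← right_inf hS h3]
        exact sq_mem_hfold hcmem (cube_right hS h3) n

lemma interSet_full (hS : TwoFold S) (A : ℕ → Set S) (hA : ∀ q, A (q + 1) ⊆ A q) :
    interSet A = {h | 1 ≤ h} := by
  have hA' : Antitone A := antitone_nat_of_succ_le hA
  ext h
  constructor
  · exact fun hh => hh.1
  · intro hh
    refine ⟨hh, ?_⟩
    obtain ⟨n, rfl⟩ : ∃ n, h = n + 1 := ⟨h - 1, by have : 1 ≤ h := hh; omega⟩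
    apply Set.Subset.antisymm
    · apply Set.subset_iInter
      intro q
      exact hfold_mono (Set.iInter_subset A q) n
    · intro x hx
      exact mem_of_forall hS A hA' n x (Set.mem_iInter.1 hx)

/-! ### Necessity of the criterion -/

/-- all product intersection sets are full -/
def AllFull (S : Type v) [Semigroup S] : Prop :=
  ∀ A : ℕ → Set S, AsympStrictDecreasing A → interSet A = {h | 1 ≤ h}

lemma two_of_full (hS : AllFull S) (A : ℕ → Set S) (hA : AsympStrictDecreasing A) :
    (⋂ q, A q) * (⋂ q, A q) = ⋂ q, A q * A q := by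
  have h1 : 2 ∈ interSet A := by
    rw [hS A hA]
    show 1 ≤ 2
    norm_num
  exact h1.2

lemma full_kernel (hS : AllFull S) {c x : S} (a : ℕ → S) (ha : Function.Injective a)
    (hac : ∀ n, a n ≠ c) (hx : ∀ n, c * a n = x ∨ a n * c = x) : c * c = x := by
  set A : ℕ → Set S := fun q => {c} ∪ {y | ∃ n, q ≤ n ∧ y = a n} with hA
  have h1 : ∀ q, A (q + 1) ⊆ A q := by
    rintro q y (rfl | ⟨n, hn, rfl⟩)
    · exact Or.inl rfl
    · exact Or.inr ⟨n, by omega, rfl⟩
  have h2 : AsympStrictDecreasing A := by
    refine ⟨h1, ?_⟩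
    have : {q | A q ≠ A (q + 1)} = Set.univ := by
      apply Set.eq_univ_of_forall
      intro q hq
      have h3 : a q ∈ A (q + 1) := hq ▸ (Or.inr ⟨q, le_rfl, rfl⟩ : a q ∈ A q)
      rcases h3 with h3 | ⟨n, hn, h3⟩
      · exact hac q h3
      · have := ha h3
        omega
    rw [this]
    exact Set.infinite_univ
  have h3 : (⋂ q, A q) = {c} := by
    apply Set.Subset.antisymm
    · intro y hy
      rw [Set.mem_iInter] at hy
      rcases hy 0 with h0 | ⟨n, -, rfl⟩
      · exact h0
      · rcases hy (n + 1) with h0 | ⟨m, hm, h4⟩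
        · exact h0
        · have := ha h4
          omega
    · rintro y rfl
      rw [Set.mem_iInter]
      intro q
      exact Or.inl rfl
  have h4 := two_of_full hS A h2
  rw [h3, Set.singleton_mul_singleton] at h4
  have h5 : x ∈ ⋂ q, A q * A q := by
    rw [Set.mem_iInter]
    intro q
    rcases hx q with h | h
    · exact ⟨c, Or.inl rfl, a q, Or.inr ⟨q, le_rfl, rfl⟩, h⟩
    · exact ⟨a q, Or.inr ⟨q, le_rfl, rfl⟩, c, Or.inl rfl, h⟩
  rw [← h4] at h5
  exact (Set.mem_singleton_iff.1 h5).symm

lemma full_matching (hS : AllFull S) (f g : ℕ → S) (hf : Function.Injective f)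
    (hg : Function.Injective g) {x : S} (hx : ∀ n, f n * g n = x) : False := by
  set A : ℕ → Set S := fun q => {y | ∃ n, q ≤ n ∧ (y = f n ∨ y = g n)} with hA
  have h1 : ∀ q, A (q + 1) ⊆ A q := by
    rintro q y ⟨n, hn, h⟩
    exact ⟨n, by omega, h⟩
  have hanti : Antitone A := antitone_nat_of_succ_le h1
  have hempty : (⋂ q, A q) = ∅ := by
    apply Set.eq_empty_of_forall_notMem
    intro y hy
    rw [Set.mem_iInter] at hy
    have hfin : {n | f n = y ∨ g n = y}.Finite := by
      have e : {n | f n = y ∨ g n = y} = {n | f n = y} ∪ {n | g n = y} := by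
        ext n
        rfl
      rw [e]
      apply Set.Finite.union
      · apply Set.Subsingleton.finite
        intro m hm n hn
        exact hf (hm.trans hn.symm)
      · apply Set.Subsingleton.finite
        intro m hm n hn
        exact hg (hm.trans hn.symm)
    obtain ⟨N, hN⟩ := hfin.bddAbove
    obtain ⟨n, hn, h⟩ := hy (N + 1)
    have : n ≤ N := hN (by
      rcases h with h | h
      · exact Or.inl h.symm
      · exact Or.inr h.symm)
    omega
  have h2 : AsympStrictDecreasing A := by
    refine ⟨h1, ?_⟩
    intro hfin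
    obtain ⟨N, hN⟩ := hfin.bddAbove
    have h3 : ∀ k, A (N + 1 + k) = A (N + 1) := by
      intro k
      induction k with
      | zero => rfl
      | succ k ih =>
        by_contra hne
        have h4 : N + 1 + k ∈ {q | A q ≠ A (q + 1)} := by
          intro h5
          apply hne
          rw [← ih, h5]
          rfl
        have := hN h4
        omega
    have h4 : f (N + 1) ∈ ⋂ q, A q := by
      rw [Set.mem_iInter]
      intro q
      have h5 : f (N + 1) ∈ A (N + 1 + q) := by
        rw [h3]
        exact ⟨N + 1, le_rfl, Or.inl rfl⟩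
      exact hanti (by omega) h5
    rw [hempty] at h4
    exact h4
  have h4 := two_of_full hS A h2
  rw [hempty, Set.empty_mul] at h4
  have h5 : x ∈ ⋂ q, A q * A q := by
    rw [Set.mem_iInter]
    intro q
    exact ⟨f q, ⟨q, le_rfl, Or.inl rfl⟩, g q, ⟨q, le_rfl, Or.inr rfl⟩, hx q⟩
  rw [← h4] at h5
  exact h5

omit [Semigroup S] in
lemma seq_of_infinite {B : Set S} (hB : B.Infinite) (c : S) : ∃ a : ℕ → S,
    Function.Injective a ∧ (∀ n, a n ∈ B) ∧ ∀ n, a n ≠ c := by
  have h1 : (B \ {c}).Infinite := hB.sdiff (Set.finite_singleton c)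
  refine ⟨fun n => (h1.natEmbedding _ n : S), ?_, ?_, ?_⟩
  · intro m n h
    exact (h1.natEmbedding _).injective (Subtype.ext h)
  · intro n
    exact (h1.natEmbedding _ n).2.1
  · intro n
    exact (h1.natEmbedding _ n).2.2

lemma twoFold_of_full (hS : AllFull S) : TwoFold S := by
  intro x
  have hl : ∀ c : S, {a | c * a = x}.Infinite → c * c = x := by
    intro c hc
    obtain ⟨a, ha1, ha2, ha3⟩ := seq_of_infinite hc c
    exact full_kernel hS a ha1 ha3 (fun n => Or.inl (ha2 n))
  have hr : ∀ c : S, {a | a * c = x}.Infinite → c * c = x := by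
    intro c hc
    obtain ⟨a, ha1, ha2, ha3⟩ := seq_of_infinite hc c
    exact full_kernel hS a ha1 ha3 (fun n => Or.inr (ha2 n))
  -- a finite vertex cover
  obtain ⟨M, hM⟩ : ∃ M : Finset (S × S), ∀ p : S × S, p.1 * p.2 = x →
      ∃ m ∈ M, m.1 = p.1 ∨ m.2 = p.2 := by
    by_contra hcon
    push Not at hcon
    obtain ⟨f, hf1, hf2⟩ := exists_seq_of_forall_finset_exists (fun p : S × S => p.1 * p.2 = x)
      (fun p p' => p.1 ≠ p'.1 ∧ p.2 ≠ p'.2) (by
        intro M _
        obtain ⟨p, hp, hp'⟩ := hcon M
        exact ⟨p, hp, hp'⟩)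
    refine full_matching hS (fun n => (f n).1) (fun n => (f n).2) ?_ ?_ hf1
    · intro m n h
      rcases lt_trichotomy m n with hmn | hmn | hmn
      · exact absurd h (hf2 m n hmn).1
      · exact hmn
      · exact absurd h.symm (hf2 n m hmn).1
    · intro m n h
      rcases lt_trichotomy m n with hmn | hmn | hmn
      · exact absurd h (hf2 m n hmn).2
      · exact hmn
      · exact absurd h.symm (hf2 n m hmn).2
  classical
  set L : Set S := Prod.fst '' (M : Set (S × S)) with hL
  set R : Set S := Prod.snd '' (M : Set (S × S)) with hR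
  have hLf : L.Finite := M.finite_toSet.image _
  have hRf : R.Finite := M.finite_toSet.image _
  refine ⟨{c ∈ L | {a | c * a = x}.Infinite} ∪ {c ∈ R | {a | a * c = x}.Infinite},
    (hLf.subset (Set.sep_subset _ _)).union (hRf.subset (Set.sep_subset _ _)), ?_, ?_⟩
  · rintro c (hc | hc)
    · exact hl c hc.2
    · exact hr c hc.2
  · have h1 : {p : S × S | p.1 * p.2 = x ∧
        p.1 ∉ {c ∈ L | {a | c * a = x}.Infinite} ∪ {c ∈ R | {a | a * c = x}.Infinite} ∧
        p.2 ∉ {c ∈ L | {a | c * a = x}.Infinite} ∪ {c ∈ R | {a | a * c = x}.Infinite}} ⊆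
        (⋃ c ∈ {c ∈ L | {a | c * a = x}.Finite}, (fun a => (c, a)) '' {a | c * a = x}) ∪
        (⋃ c ∈ {c ∈ R | {a | a * c = x}.Finite}, (fun a => (a, c)) '' {a | a * c = x}) := by
      rintro p ⟨hp, hp1, hp2⟩
      obtain ⟨m, hm, h | h⟩ := hM p hp
      · left
        have hpL : p.1 ∈ L := ⟨m, hm, h⟩
        refine Set.mem_biUnion (x := p.1) ⟨hpL, ?_⟩ ⟨p.2, hp, rfl⟩
        by_contra hinf
        exact hp1 (Or.inl ⟨hpL, hinf⟩)
      · right
        have hpR : p.2 ∈ R := ⟨m, hm, h⟩
        refine Set.mem_biUnion (x := p.2) ⟨hpR, ?_⟩ ⟨p.1, hp, rfl⟩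
        by_contra hinf
        exact hp2 (Or.inr ⟨hpR, hinf⟩)
    refine Set.Finite.subset ?_ h1
    apply Set.Finite.union
    · exact (hLf.subset (Set.sep_subset _ _)).biUnion (fun c hc => hc.2.image _)
    · exact (hRf.subset (Set.sep_subset _ _)).biUnion (fun c hc => hc.2.image _)

omit [Semigroup S] in
/-- an infinite type carries an asymptotically strictly decreasing sequence of subsets -/
lemma exists_asymp (hinf : Infinite S) : ∃ A : ℕ → Set S, AsympStrictDecreasing A := by
  obtain ⟨a⟩ : Nonempty (ℕ ↪ S) := ⟨Infinite.natEmbedding S⟩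
  refine ⟨fun q => {y | ∃ n, q ≤ n ∧ y = a n}, ?_, ?_⟩
  · rintro q y ⟨n, hn, h⟩
    exact ⟨n, by omega, h⟩
  · have : {q | {y | ∃ n, q ≤ n ∧ y = a n} ≠ {y | ∃ n, q + 1 ≤ n ∧ y = a n}} =
        Set.univ := by
      apply Set.eq_univ_of_forall
      intro q hq
      have h3 : a q ∈ {y | ∃ n, q + 1 ≤ n ∧ y = a n} := by
        rw [← hq]
        exact ⟨q, le_rfl, rfl⟩
      obtain ⟨n, hn, h⟩ := h3
      have := a.injective h
      omega
    rw [this]
    exact Set.infinite_univ

/-- **Characterisation.**  A semigroup `S` satisfies both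
1. there is `h₀` such that for every `h ≥ h₀` some `x ∈ S` has infinitely many representations as a
   product of `h` elements, and
2. `𝐇*_ℕ(S) = {ℕ}`,
if and only if
(a) some element has infinitely many factorisations `x = a b`, and
(b) for every `x ∈ S` there is a finite set `C` of elements `c` with `c ^ 2 = x` such that
    `x = a b` with `a, b ∉ C` holds for only finitely many pairs `(a, b)`. -/
theorem result (S : Type v) [Semigroup S] :
    (InfiniteRepresentations S ∧ FullIntersectionSets S) ↔
      ((∃ x : S, {p : S × S | p.1 * p.2 = x}.Infinite) ∧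
        ∀ x : S, ∃ C : Set S, C.Finite ∧ (∀ c ∈ C, c * c = x) ∧
          {p : S × S | p.1 * p.2 = x ∧ p.1 ∉ C ∧ p.2 ∉ C}.Finite) := by
  rw [infRep_iff]
  constructor
  · rintro ⟨h1, h2⟩
    refine ⟨h1, ?_⟩
    apply twoFold_of_full
    intro A hA
    have h3 : interSet A ∈ {X | ∃ A : ℕ → Set S, AsympStrictDecreasing A ∧ interSet A = X} :=
      ⟨A, hA, rfl⟩
    rw [h2] at h3
    exact h3
  · rintro ⟨h1, h2⟩
    refine ⟨h1, ?_⟩
    have hinf : Infinite S := by
      by_contra hfin
      rw [not_infinite_iff_finite] at hfin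
      obtain ⟨x, hx⟩ := h1
      exact hx (Set.toFinite _)
    obtain ⟨A₀, hA₀⟩ := exists_asymp hinf
    apply Set.Subset.antisymm
    · rintro X ⟨A, hA, rfl⟩
      exact interSet_full h2 A hA.1
    · rintro X rfl
      exact ⟨A₀, hA₀, interSet_full h2 A₀ hA₀.1⟩

end Pool.Agent.Results.MP_3b8abe_co.Characterisation
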